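import Mathlib
import Pool.Agent.Helper13.Om.Harm
import Pool.Agent.Helper13.Om.BT

/-! Counting rough integers with a given number of prime factors. -/

namespace Pool.Agent.Helper33.Cont

open Finset Helper13.Om

open Classical in
/-- integers in `[1, X]` with exactly `u` prime factors, all exceeding `z` -/
noncomputable def Rset (z u X : ℕ) : Finset ℕ :=
  (Icc 1 X).filter (fun b => (∀ p : ℕ, p.Prime → p ∣ b → z < p) ∧
    ArithmeticFunction.cardFactors b = u)

lemma mem_Rset {z u X b : ℕ} : b ∈ Rset z u X ↔ (1 ≤ b ∧ b ≤ X) ∧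
    (∀ p : ℕ, p.Prime → p ∣ b → z < p) ∧ ArithmeticFunction.cardFactors b = u := by
  classical
  unfold Rset
  rw [Finset.mem_filter, Finset.mem_Icc]

/-- primes in a range just above `z` -/
def Pz (z : ℕ) : Finset ℕ :=
  (Ico (Nat.log 2 z + 1) (2 * (Nat.log 2 z + 1) + 1)).biUnion shell

lemma mem_Pz {z p : ℕ} (hz : 8 ≤ z) (hp : p ∈ Pz z) : p.Prime ∧ z < p ∧ p ≤ z ^ 4 := by
  unfold Pz at hp
  rw [Finset.mem_biUnion] at hp
  obtain ⟨e, he, hpe⟩ := hp
  rw [Finset.mem_Ico] at he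
  obtain ⟨⟨h1, h2⟩, h3⟩ := (mem_shell e p).mp hpe
  refine ⟨h3, ?_, ?_⟩
  · calc z < 2 ^ (Nat.log 2 z + 1) := Nat.lt_pow_succ_log_self one_lt_two z
      _ ≤ 2 ^ e := Nat.pow_le_pow_right (by norm_num) he.1
      _ ≤ p := h1
  · have h4 : 2 ^ Nat.log 2 z ≤ z := Nat.pow_log_le_self 2 (by omega)
    calc p ≤ 2 ^ (e + 1) := h2.le
      _ ≤ 2 ^ (2 * (Nat.log 2 z + 1) + 1) := Nat.pow_le_pow_right (by norm_num) (by omega)
      _ = 8 * (2 ^ Nat.log 2 z) ^ 2 := by ring
      _ ≤ z * z ^ 2 := Nat.mul_le_mul hz (Nat.pow_le_pow_left h4 2)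
      _ ≤ z ^ 4 := by
        rw [show z * z ^ 2 = z ^ 3 by ring]
        exact Nat.pow_le_pow_right (by omega) (by norm_num)

lemma shell_disj : ∀ e e' : ℕ, e ≠ e' → Disjoint (shell e) (shell e') := by
  intro e e' h
  rw [Finset.disjoint_left]
  intro p h1 h2
  obtain ⟨⟨a1, a2⟩, a3⟩ := (mem_shell e p).mp h1
  obtain ⟨⟨b1, b2⟩, b3⟩ := (mem_shell e' p).mp h2
  rcases lt_or_gt_of_ne h with h' | h'
  · have : 2 ^ (e + 1) ≤ 2 ^ e' := Nat.pow_le_pow_right (by norm_num) h'
    omega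
  · have : 2 ^ (e' + 1) ≤ 2 ^ e := Nat.pow_le_pow_right (by norm_num) h'
    omega

lemma Pz_sum {z : ℕ} (hz : 2 ^ 12 ≤ z) : (1 : ℝ) / 32 ≤ ∑ p ∈ Pz z, (1 : ℝ) / p := by
  have hl : 12 ≤ Nat.log 2 z := by
    have := Nat.log_mono_right (b := 2) hz
    rwa [Nat.log_pow one_lt_two] at this
  have h1 := harm_le_L (Nat.log 2 z + 1) (2 * (Nat.log 2 z + 1)) (by omega)
  have h2 := harm_lower (Nat.log 2 z + 1) 1 (by omega)
  have h3 : (Nat.log 2 z + 1) * 2 ^ 1 = 2 * (Nat.log 2 z + 1) := by ring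
  rw [h3] at h2
  unfold Pz
  rw [Finset.sum_biUnion (fun e _ e' _ h => shell_disj e e' h)]
  have h4 : (∑ e ∈ Ico (Nat.log 2 z + 1) (2 * (Nat.log 2 z + 1) + 1), Le e) =
      ∑ e ∈ Ico (Nat.log 2 z + 1) (2 * (Nat.log 2 z + 1) + 1), ∑ p ∈ shell e, (1 : ℝ) / p := rfl
  rw [← h4]
  push_cast at h2
  linarith

/-- the constants -/
noncomputable def cR : ℕ → ℝ
  | 0 => 1 / 8
  | 1 => 1 / 8
  | (u + 2) => cR (u + 1) / (64 * (u + 2))

lemma cR_pos : ∀ u, 0 < cR u
  | 0 => by unfold cR; norm_num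
  | 1 => by unfold cR; norm_num
  | (u + 2) => by
    have := cR_pos (u + 1)
    unfold cR
    positivity

lemma cR_anti : ∀ u, cR (u + 1) ≤ cR u
  | 0 => by unfold cR; norm_num
  | (u + 1) => by
    show cR (u + 2) ≤ cR (u + 1)
    have h := cR_pos (u + 1)
    rw [cR]
    apply div_le_self h.le
    have : (0 : ℝ) ≤ u := Nat.cast_nonneg u
    linarith

lemma cR_anti' {s u : ℕ} (h : s ≤ u) : cR u ≤ cR s :=
  antitone_nat_of_succ_le cR_anti h

lemma R_base {z X L : ℕ} (hz : 2 ^ 14 ≤ z) (hX : z ^ 4 ≤ X) (hL : Nat.log 2 X ≤ L) :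
    1 / 8 * (X : ℝ) / L ≤ (Rset z 1 X).card := by
  have hX0 : X ≠ 0 := by
    have : 0 < z ^ 4 := by positivity
    omega
  have hlogX : 56 ≤ Nat.log 2 X := by
    have h1 : 2 ^ 56 ≤ X := by
      calc 2 ^ 56 = (2 ^ 14) ^ 4 := by norm_num
        _ ≤ z ^ 4 := Nat.pow_le_pow_left hz 4
        _ ≤ X := hX
    have := Nat.log_mono_right (b := 2) h1
    rwa [Nat.log_pow one_lt_two] at this
  obtain ⟨e, he⟩ : ∃ e, Nat.log 2 X = e + 2 := ⟨Nat.log 2 X - 2, by omega⟩
  have h1 : 2 ^ (e + 2) ≤ X := by rw [← he]; exact Nat.pow_log_le_self 2 hX0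
  have h2 : X < 2 ^ (e + 3) := by
    have := Nat.lt_pow_succ_log_self one_lt_two X
    rwa [he] at this
  have hze : z < 2 ^ e := by
    by_contra hc
    push Not at hc
    have : 2 ^ (e + 3) ≤ z ^ 4 := by
      calc 2 ^ (e + 3) = 8 * 2 ^ e := by ring
        _ ≤ z ^ 3 * z := by
          apply Nat.mul_le_mul _ hc
          calc 8 ≤ (2 ^ 14) ^ 3 := by norm_num
            _ ≤ z ^ 3 := Nat.pow_le_pow_left hz 3
        _ = z ^ 4 := by ring
    omega
  have h3 := shell_pair_card e (by omega)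
  have hsub : shell e ∪ shell (e + 1) ⊆ Rset z 1 X := by
    intro p hp
    have hp' : (2 ^ e ≤ p ∧ p < 2 ^ (e + 2)) ∧ p.Prime := by
      rcases Finset.mem_union.mp hp with h | h
      · obtain ⟨⟨a, b⟩, c⟩ := (mem_shell e p).mp h
        refine ⟨⟨a, b.trans_le (Nat.pow_le_pow_right (by norm_num) (by omega))⟩, c⟩
      · obtain ⟨⟨a, b⟩, c⟩ := (mem_shell (e + 1) p).mp h
        refine ⟨⟨(Nat.pow_le_pow_right (by norm_num) (by omega)).trans a, b⟩, c⟩
    rw [mem_Rset]
    refine ⟨⟨hp'.2.one_lt.le, hp'.1.2.le.trans h1⟩, ?_,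
      ArithmeticFunction.cardFactors_apply_prime hp'.2⟩
    intro r hr hd
    rw [(Nat.prime_dvd_prime_iff_eq hr hp'.2).mp hd]
    exact hze.trans_le hp'.1.1
  have h4 : (shell e).card + (shell (e + 1)).card ≤ (Rset z 1 X).card := by
    rw [← Finset.card_union_of_disjoint (shell_disj e (e + 1) (by omega))]
    exact Finset.card_le_card hsub
  have h4' : ((shell e).card : ℝ) + (shell (e + 1)).card ≤ (Rset z 1 X).card := by
    exact_mod_cast h4
  refine le_trans ?_ (h3.trans h4')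
  have hLe : ((e : ℝ) + 2) ≤ L := by
    have : e + 2 ≤ L := by omega
    exact_mod_cast this
  have he0 : (0 : ℝ) < e + 2 := by positivity
  have hX8 : (X : ℝ) ≤ 8 * 2 ^ e := by
    have : X ≤ 8 * 2 ^ e := by
      calc X ≤ 2 ^ (e + 3) := h2.le
        _ = 8 * 2 ^ e := by ring
    exact_mod_cast this
  calc 1 / 8 * (X : ℝ) / L ≤ 2 ^ e / L := by
        apply div_le_div_of_nonneg_right _ (by linarith)
        linarith
    _ ≤ 2 ^ e / (e + 2) := by
        apply div_le_div_of_nonneg_left (by positivity) he0 hLe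

lemma R_step_sum (z u X : ℕ) (hz : 8 ≤ z) :
    ∑ p ∈ Pz z, (Rset z u (X / p)).card ≤ (u + 1) * (Rset z (u + 1) X).card := by
  classical
  have h1 : ∀ p ∈ Pz z, (Rset z u (X / p)).card ≤
      ((Rset z (u + 1) X).filter (fun b => p ∣ b)).card := by
    intro p hp
    obtain ⟨hp1, hp2, hp3⟩ := mem_Pz hz hp
    apply Finset.card_le_card_of_injOn (fun b => p * b)
    · intro b hb
      rw [Finset.mem_coe, mem_Rset] at hb
      obtain ⟨⟨b1, b2⟩, b3, b4⟩ := hb
      rw [Finset.mem_coe, Finset.mem_filter, mem_Rset]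
      refine ⟨⟨⟨?_, ?_⟩, ?_, ?_⟩, dvd_mul_right _ _⟩
      · exact Nat.mul_pos hp1.pos b1
      · calc p * b ≤ p * (X / p) := Nat.mul_le_mul_left _ b2
          _ ≤ X := Nat.mul_div_le X p
      · intro r hr hd
        rcases (Nat.Prime.dvd_mul hr).mp hd with h | h
        · rwa [(Nat.prime_dvd_prime_iff_eq hr hp1).mp h]
        · exact b3 r hr h
      · rw [ArithmeticFunction.cardFactors_mul hp1.ne_zero (by omega),
          ArithmeticFunction.cardFactors_apply_prime hp1, b4]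
        ring
    · intro a _ b _ hab
      exact Nat.eq_of_mul_eq_mul_left hp1.pos hab
  refine (Finset.sum_le_sum h1).trans ?_
  have h2 : ∑ p ∈ Pz z, ((Rset z (u + 1) X).filter (fun b => p ∣ b)).card =
      ∑ b ∈ Rset z (u + 1) X, ((Pz z).filter (fun p => p ∣ b)).card := by
    simp only [Finset.card_filter]
    exact Finset.sum_comm
  rw [h2]
  have h3 : ∀ b ∈ Rset z (u + 1) X, ((Pz z).filter (fun p => p ∣ b)).card ≤ u + 1 := by
    intro b hb
    obtain ⟨⟨b1, b2⟩, b3, b4⟩ := mem_Rset.mp hb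
    calc ((Pz z).filter (fun p => p ∣ b)).card ≤ b.primeFactors.card := by
          apply Finset.card_le_card
          intro p hp
          rw [Finset.mem_filter] at hp
          exact Nat.mem_primeFactors.mpr ⟨(mem_Pz hz hp.1).1, hp.2, by omega⟩
      _ ≤ b.primeFactorsList.length := List.toFinset_card_le _
      _ = ArithmeticFunction.cardFactors b := ArithmeticFunction.cardFactors_apply.symm
      _ = u + 1 := b4
  refine (Finset.sum_le_card_nsmul _ _ _ h3).trans ?_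
  rw [smul_eq_mul, mul_comm]

theorem R_lower {z : ℕ} (hz : 2 ^ 14 ≤ z) (L : ℕ) : ∀ u X : ℕ, z ^ (4 * (u + 1)) ≤ X →
    Nat.log 2 X ≤ L → cR (u + 1) * (X : ℝ) / L ≤ (Rset z (u + 1) X).card := by
  intro u
  induction u with
  | zero =>
    intro X hX hL
    have := R_base hz (by simpa using hX) hL
    unfold cR
    exact this
  | succ u ih =>
    intro X hX hL
    have h8 : 8 ≤ z := le_trans (by norm_num) hz
    have hs := R_step_sum z (u + 1) X h8
    have hs' : ∑ p ∈ Pz z, ((Rset z (u + 1) (X / p)).card : ℝ) ≤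
        ((u : ℝ) + 2) * (Rset z (u + 2) X).card := by
      have : ((∑ p ∈ Pz z, (Rset z (u + 1) (X / p)).card : ℕ) : ℝ) ≤
          (((u + 1 + 1) * (Rset z (u + 1 + 1) X).card : ℕ) : ℝ) := by exact_mod_cast hs
      push_cast at this
      have e : (u : ℝ) + 1 + 1 = u + 2 := by ring
      rw [e] at this
      exact this
    have hL0 : (0 : ℝ) ≤ L := Nat.cast_nonneg L
    have hlow : ∀ p ∈ Pz z, cR (u + 1) * (X : ℝ) / (2 * L) * (1 / p) ≤
        ((Rset z (u + 1) (X / p)).card : ℝ) := by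
      intro p hp
      obtain ⟨hp1, hp2, hp3⟩ := mem_Pz h8 hp
      have h1 : z ^ (4 * (u + 1)) ≤ X / p := by
        rw [Nat.le_div_iff_mul_le hp1.pos]
        calc z ^ (4 * (u + 1)) * p ≤ z ^ (4 * (u + 1)) * z ^ 4 := Nat.mul_le_mul_left _ hp3
          _ = z ^ (4 * (u + 1 + 1)) := by ring
          _ ≤ X := hX
      have h2 : Nat.log 2 (X / p) ≤ L :=
        (Nat.log_mono_right (Nat.div_le_self X p)).trans hL
      have h3 := ih (X / p) h1 h2
      refine le_trans ?_ h3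
      have hp0 : (0 : ℝ) < p := by exact_mod_cast hp1.pos
      have h4 : (X : ℝ) / (2 * p) ≤ ((X / p : ℕ) : ℝ) := by
        have h5 : 1 ≤ X / p := le_trans (Nat.one_le_pow _ _ (by omega)) h1
        have h6 : X < p * (X / p + 1) := Nat.lt_mul_div_succ X hp1.pos
        have h7 : X ≤ 2 * p * (X / p) := by
          calc X ≤ p * (X / p + 1) := h6.le
            _ ≤ p * (X / p + X / p) := Nat.mul_le_mul_left _ (by omega)
            _ = 2 * p * (X / p) := by ring
        rw [div_le_iff₀ (by positivity)]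
        have : (X : ℝ) ≤ 2 * p * ((X / p : ℕ) : ℝ) := by exact_mod_cast h7
        linarith
      have hc := (cR_pos (u + 1)).le
      calc cR (u + 1) * (X : ℝ) / (2 * L) * (1 / p) = cR (u + 1) / L * (X / (2 * p)) := by
            rcases hL0.eq_or_lt with h | h
            · rw [← h]; simp
            · field_simp
        _ ≤ cR (u + 1) / L * ((X / p : ℕ) : ℝ) :=
            mul_le_mul_of_nonneg_left h4 (div_nonneg hc hL0)
        _ = cR (u + 1) * ((X / p : ℕ) : ℝ) / L := by ring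
    have hsum := Finset.sum_le_sum hlow
    rw [← Finset.mul_sum] at hsum
    have hP := Pz_sum (z := z) (le_trans (by norm_num) hz)
    have hA : 0 ≤ cR (u + 1) * (X : ℝ) / (2 * L) := by
      have := (cR_pos (u + 1)).le
      positivity
    have h5 := mul_le_mul_of_nonneg_left hP hA
    have h6 : cR (u + 1) * (X : ℝ) / (2 * L) * (1 / 32) ≤
        ((u : ℝ) + 2) * (Rset z (u + 2) X).card := h5.trans (hsum.trans hs')
    have hu : (0 : ℝ) < (u : ℝ) + 2 := by positivity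
    show cR (u + 2) * (X : ℝ) / L ≤ _
    rw [cR]
    have h7 : cR (u + 1) / (64 * ((u : ℝ) + 2)) * X / L =
        (cR (u + 1) * (X : ℝ) / (2 * L) * (1 / 32)) / (u + 2) := by
      rcases hL0.eq_or_lt with h | h
      · rw [← h]; simp
      · field_simp
        ring
    rw [h7, div_le_iff₀ hu]
    linarith

open Classical in
/-- upper bound for the number of `z`-rough integers -/
theorem rough_upper {z X : ℕ} (hz : 2 ≤ z) (hX : z ^ 41 ≤ X) :
    (((Icc 1 X).filter (fun b => ∀ p : ℕ, p.Prime → p ≤ z → ¬ p ∣ b)).card : ℝ) ≤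
      (Real.exp (Kt 1) + 1) * (X / Real.log (z + 1)) := by
  classical
  set P : Finset ℕ := (z + 1).primesBelow with hP
  have hPp : ∀ q ∈ P, q.Prime := fun q hq => Nat.prime_of_mem_primesBelow hq
  have hPz : ∀ q ∈ P, q ≤ z := fun q hq => by
    have := Nat.lt_of_mem_primesBelow hq
    omega
  have hs := sieve_upper P ∅ (Finset.disjoint_empty_left P) hPp (by simp) 1
    (fun q hq => (hPp q hq).one_lt) (Nat.log 2 z)
    (fun q hq => Nat.log_mono_right (hPz q hq)) (fun _ => {0})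
    (fun q hq => ⟨by simpa using (hPp q hq).pos, by simp⟩) (by simp) 1 le_rfl X
  have hm := mertens_prod (z + 1) (by omega)
  push_cast at hm
  have hlog : 0 < Real.log ((z : ℝ) + 1) := Real.log_pos (by
    have : (2 : ℝ) ≤ z := by exact_mod_cast hz
    linarith)
  have hX0 : (0 : ℝ) ≤ X := Nat.cast_nonneg X
  have hsub : (((Icc 1 X).filter (fun b => ∀ p : ℕ, p.Prime → p ≤ z → ¬ p ∣ b)).card : ℝ) ≤
      (((Finset.Icc 1 X).filter
      (fun m => (∀ q ∈ (∅ : Finset ℕ), m % q ∈ (fun _ => ({0} : Finset ℕ)) q) ∧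
        ∀ q ∈ P, m % q ∉ (fun _ => ({0} : Finset ℕ)) q)).card : ℝ) := by
    exact_mod_cast Finset.card_le_card (by
      intro b hb
      rw [Finset.mem_filter] at hb ⊢
      refine ⟨hb.1, by simp, ?_⟩
      intro q hq hmem
      have : b % q = 0 := by simpa using hmem
      exact hb.2 q (hPp q hq) (hPz q hq) (Nat.dvd_of_mod_eq_zero this))
  refine hsub.trans (hs.trans ?_)
  simp only [Finset.prod_empty, Finset.card_singleton, Nat.cast_one, one_mul, div_one]
  have h1 : (X : ℝ) * (∏ q ∈ P, (1 - 1 / (q : ℝ))) * Real.exp (Kt 1) ≤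
      Real.exp (Kt 1) * (X / Real.log (z + 1)) := by
    calc (X : ℝ) * (∏ q ∈ P, (1 - 1 / (q : ℝ))) * Real.exp (Kt 1) ≤
        X * (1 / Real.log (z + 1)) * Real.exp (Kt 1) := by gcongr
      _ = Real.exp (Kt 1) * (X / Real.log (z + 1)) := by ring
  have h2 : (2 : ℝ) ^ (20 * Nat.log 2 z * (1 + 1)) ≤ X / Real.log (z + 1) := by
    have h3 : 2 ^ (20 * Nat.log 2 z * (1 + 1)) ≤ z ^ 40 := by
      calc 2 ^ (20 * Nat.log 2 z * (1 + 1)) = (2 ^ Nat.log 2 z) ^ 40 := by
            rw [← pow_mul]; congr 1; ring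
        _ ≤ z ^ 40 := Nat.pow_le_pow_left (Nat.pow_log_le_self 2 (by omega)) 40
    have h3' : (2 : ℝ) ^ (20 * Nat.log 2 z * (1 + 1)) ≤ (z : ℝ) ^ 40 := by exact_mod_cast h3
    refine h3'.trans ?_
    rw [le_div_iff₀ hlog]
    have h4 : Real.log ((z : ℝ) + 1) ≤ z := by
      have := Real.log_le_sub_one_of_pos (x := (z : ℝ) + 1) (by positivity)
      linarith
    calc (z : ℝ) ^ 40 * Real.log (z + 1) ≤ (z : ℝ) ^ 40 * z := by gcongr
      _ = (z : ℝ) ^ 41 := by ring
      _ ≤ X := by exact_mod_cast hX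
  linarith

end Pool.Agent.Helper33.Cont
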