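import Mathlib

/-! Smooth and rough parts of an integer relative to a predicate on primes, and the mean of
additive weights. -/

namespace Pool.Agent.Helper33.Cont

open Finset

/-- the part of `n` composed of primes satisfying `q` -/
def part (q : ℕ → Prop) [DecidablePred q] (n : ℕ) : ℕ := (n.primeFactorsList.filter (fun p => q p)).prod

/-- the number of primes satisfying `q` -/
def cnt (q : ℕ → Prop) [DecidablePred q] (n : ℕ) : ℕ := (n.primeFactorsList.filter (fun p => q p)).length

lemma list_split (q : ℕ → Prop) [DecidablePred q] (l : List ℕ) :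
    (l.filter (fun p => q p)).prod * (l.filter (fun p => ¬ q p)).prod = l.prod := by
  induction l with
  | nil => simp
  | cons a l ih =>
    by_cases h : q a
    · simp only [List.filter_cons, h, decide_true, if_true, not_true_eq_false, decide_false,
        Bool.false_eq_true, if_false, List.prod_cons]
      rw [← ih]; ring
    · simp only [List.filter_cons, h, decide_true, if_true, not_false_eq_true, decide_false,
        Bool.false_eq_true, if_false, List.prod_cons]
      rw [← ih]; ring

variable (q : ℕ → Prop) [DecidablePred q]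

lemma part_mul {n : ℕ} (hn : n ≠ 0) : part q n * part (fun p => ¬ q p) n = n := by
  unfold part
  rw [list_split q, Nat.prod_primeFactorsList hn]

lemma cnt_add (n : ℕ) : cnt q n + cnt (fun p => ¬ q p) n = ArithmeticFunction.cardFactors n := by
  rw [ArithmeticFunction.cardFactors_apply]
  show (n.primeFactorsList.filter (fun p => q p)).length +
    (n.primeFactorsList.filter (fun p => ¬ q p)).length = n.primeFactorsList.length
  generalize n.primeFactorsList = l
  induction l with
  | nil => simp
  | cons a l ih =>
    by_cases h : q a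
    · simp only [List.filter_cons, h, decide_true, if_true, not_true_eq_false, decide_false,
        Bool.false_eq_true, if_false, List.length_cons]
      omega
    · simp only [List.filter_cons, h, decide_true, if_true, not_false_eq_true, decide_false,
        Bool.false_eq_true, if_false, List.length_cons]
      omega

lemma part_perm (n : ℕ) :
    (n.primeFactorsList.filter (fun p => q p)).Perm (part q n).primeFactorsList := by
  apply Nat.primeFactorsList_unique rfl
  intro p hp
  exact Nat.prime_of_mem_primeFactorsList (List.mem_filter.mp hp).1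

lemma cardFactors_part (n : ℕ) : ArithmeticFunction.cardFactors (part q n) = cnt q n := by
  rw [ArithmeticFunction.cardFactors_apply]
  unfold cnt
  exact (part_perm q n).length_eq.symm

lemma part_ne_zero (n : ℕ) : part q n ≠ 0 := by
  unfold part
  apply List.prod_ne_zero
  intro h
  have := Nat.prime_of_mem_primeFactorsList (List.mem_filter.mp h).1
  exact Nat.not_prime_zero this

lemma part_prime {n p : ℕ} (hp : p.Prime) (h : p ∣ part q n) : q p := by
  have h1 : p ∈ (part q n).primeFactorsList :=
    (Nat.mem_primeFactorsList (part_ne_zero q n)).mpr ⟨hp, h⟩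
  have h2 := (part_perm q n).mem_iff.mpr h1
  simpa using (List.mem_filter.mp h2).2

lemma part_eq_of_mul {a b n : ℕ} (ha : ∀ p : ℕ, p.Prime → p ∣ a → q p)
    (hb : ∀ p : ℕ, p.Prime → p ∣ b → ¬ q p) (hn : n ≠ 0) (h : a * b = n) :
    part q n = a ∧ part (fun p => ¬ q p) n = b := by
  have hn' := part_mul q hn
  have hc1 : Nat.Coprime (part q n) b := by
    apply Nat.coprime_of_dvd
    intro p hp h1 h2
    exact hb p hp h2 (part_prime q hp h1)
  have hc2 : Nat.Coprime a (part (fun p => ¬ q p) n) := by
    apply Nat.coprime_of_dvd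
    intro p hp h1 h2
    exact part_prime (fun p => ¬ q p) hp h2 (ha p hp h1)
  have e : a * b = part q n * part (fun p => ¬ q p) n := by rw [h, hn']
  have d1 : part q n ∣ a := by
    have : part q n ∣ a * b := by rw [e]; exact dvd_mul_right _ _
    exact hc1.dvd_of_dvd_mul_right this
  have d2 : a ∣ part q n := by
    have : a ∣ part q n * part (fun p => ¬ q p) n := by rw [← e]; exact dvd_mul_right _ _
    exact hc2.dvd_of_dvd_mul_right this
  have e1 : part q n = a := Nat.dvd_antisymm d1 d2
  refine ⟨e1, ?_⟩
  have ha0 : 0 < a := by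
    rw [← e1]; exact Nat.pos_of_ne_zero (part_ne_zero q n)
  rw [e1] at e
  exact (Nat.eq_of_mul_eq_mul_left ha0 e).symm

lemma map_sum_eq {n : ℕ} (w : ℕ → ℝ) (T : Finset ℕ)
    (hT : ∀ p, p.Prime → p ∣ n → q p → p ∈ T) (hT2 : ∀ p ∈ T, q p) (hn : n ≠ 0) :
    ((n.primeFactorsList.filter (fun p => q p)).map w).sum =
      ∑ p ∈ T, (n.factorization p : ℝ) * w p := by
  classical
  rw [Finset.sum_list_map_count]
  have h1 : ∀ p ∈ (n.primeFactorsList.filter (fun p => q p)).toFinset,
      List.count p (n.primeFactorsList.filter (fun p => q p)) • w p =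
        (n.factorization p : ℝ) * w p := by
    intro p hp
    have hp' := List.mem_toFinset.mp hp
    have hq : q p := by simpa using (List.mem_filter.mp hp').2
    rw [List.count_filter (by simpa using hq), Nat.primeFactorsList_count_eq, nsmul_eq_mul]
  rw [Finset.sum_congr rfl h1]
  apply Finset.sum_subset
  · intro p hp
    have hp' := List.mem_toFinset.mp hp
    have h2 := List.mem_filter.mp hp'
    have h3 := (Nat.mem_primeFactorsList hn).mp h2.1
    exact hT p h3.1 h3.2 (by simpa using h2.2)
  · intro p hpT hp
    have hq := hT2 p hpT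
    have : n.factorization p = 0 := by
      rw [← Nat.primeFactorsList_count_eq, List.count_eq_zero]
      intro hmem
      exact hp (List.mem_toFinset.mpr (List.mem_filter.mpr ⟨hmem, by simpa using hq⟩))
    rw [this]; simp

lemma sum_factorization (M p : ℕ) (hp : p.Prime) :
    ∑ n ∈ Icc 1 M, (n.factorization p : ℝ) ≤ 2 * M / p := by
  have h1 : ∑ n ∈ Icc 1 M, n.factorization p = (M.factorial).factorization p := by
    rw [← Finset.prod_Ico_id_eq_factorial, Nat.factorization_prod]
    · rw [Finsupp.finsetSum_apply]
      rfl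
    · intro x hx
      have := (Finset.mem_Ico.mp hx).1
      omega
  have h2 : (M.factorial).factorization p ≤ M / (p - 1) :=
    Nat.factorization_factorial_le_div_pred hp M
  have h3 : ((∑ n ∈ Icc 1 M, n.factorization p : ℕ) : ℝ) ≤ ((M / (p - 1) : ℕ) : ℝ) := by
    rw [h1]; exact_mod_cast h2
  push_cast at h3
  refine h3.trans ?_
  have hp2 : 2 ≤ p := hp.two_le
  have hp1 : (1 : ℝ) ≤ (p : ℝ) - 1 := by
    have : (2 : ℝ) ≤ p := by exact_mod_cast hp2
    linarith
  have h4 : ((M / (p - 1) : ℕ) : ℝ) ≤ (M : ℝ) / ((p - 1 : ℕ) : ℝ) := Nat.cast_div_le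
  refine h4.trans ?_
  rw [Nat.cast_sub (by omega)]
  push_cast
  rw [div_le_div_iff₀ (by linarith) (by linarith)]
  have : (0 : ℝ) ≤ M := Nat.cast_nonneg M
  nlinarith

/-- the mean of an additive weight over `[1, M]` -/
lemma sum_weight (M : ℕ) (w : ℕ → ℝ) (hw : ∀ p, 0 ≤ w p) :
    ∑ n ∈ Icc 1 M, ((n.primeFactorsList.filter (fun p => q p)).map w).sum ≤
      2 * M * ∑ p ∈ (Icc 1 M).filter (fun p => p.Prime ∧ q p), w p / p := by
  classical
  set T := (Icc 1 M).filter (fun p => p.Prime ∧ q p) with hT
  have h1 : ∀ n ∈ Icc 1 M, ((n.primeFactorsList.filter (fun p => q p)).map w).sum =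
      ∑ p ∈ T, (n.factorization p : ℝ) * w p := by
    intro n hn
    have hn' := Finset.mem_Icc.mp hn
    apply map_sum_eq
    · intro p hp hd hq
      rw [hT, Finset.mem_filter, Finset.mem_Icc]
      exact ⟨⟨hp.one_lt.le, (Nat.le_of_dvd (by omega) hd).trans hn'.2⟩, hp, hq⟩
    · intro p hp
      exact (Finset.mem_filter.mp hp).2.2
    · omega
  rw [Finset.sum_congr rfl h1, Finset.sum_comm, Finset.mul_sum]
  apply Finset.sum_le_sum
  intro p hp
  have hp' := (Finset.mem_filter.mp hp).2.1
  rw [← Finset.sum_mul]
  have := mul_le_mul_of_nonneg_right (sum_factorization M p hp') (hw p)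
  refine this.trans (le_of_eq ?_)
  ring

end Pool.Agent.Helper33.Cont
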