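import Mathlib
import Pool.Agent.Helper33.Cont.Parts
import Pool.Agent.Helper33.Cont.Count

/-! Comparison of the local law of the truncated count with the local law of `Ω`. -/

namespace Pool.Agent.Helper33.Cont

open Finset Helper13.Om

/-- the comparison constant -/
noncomputable def Cc (u : ℕ) : ℝ := (Real.exp (Kt 1) + 1) * (2 * u) / cR u

lemma Cc_nonneg (u : ℕ) : 0 ≤ Cc u := by
  unfold Cc
  have := (cR_pos u).le
  positivity

lemma sum_fiber_le {α β : Type*} [DecidableEq β] (B : Finset α) (T : Finset β) (f : α → β) :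
    ∑ a ∈ T, (B.filter (fun m => f m = a)).card ≤ B.card := by
  classical
  have h1 : (B.filter (fun m => f m ∈ T)).card =
      ∑ a ∈ T, ((B.filter (fun m => f m ∈ T)).filter (fun m => f m = a)).card :=
    Finset.card_eq_sum_card_fiberwise (fun m hm => (Finset.mem_filter.mp hm).2)
  calc ∑ a ∈ T, (B.filter (fun m => f m = a)).card
      = ∑ a ∈ T, ((B.filter (fun m => f m ∈ T)).filter (fun m => f m = a)).card := by
        apply Finset.sum_congr rfl
        intro a ha
        congr 1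
        ext m
        simp only [Finset.mem_filter]
        constructor
        · rintro ⟨h2, h3⟩
          exact ⟨⟨h2, by rw [h3]; exact ha⟩, h3⟩
        · rintro ⟨⟨h2, _⟩, h3⟩
          exact ⟨h2, h3⟩
    _ = (B.filter (fun m => f m ∈ T)).card := h1.symm
    _ ≤ B.card := Finset.card_filter_le _ _

theorem compare {u N : ℕ} (hu : 328 ≤ u) (hz : 2 ^ 14 ≤ Nat.nthRoot u N) (j s : ℕ) (hs1 : 1 ≤ s)
    (hs : 8 * s ≤ u) :
    (((Icc 1 N).filter (fun m => cnt (fun p => p ^ u ≤ N) m = j ∧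
      (part (fun p => p ^ u ≤ N) m) ^ 8 ≤ N)).card : ℝ) ≤
    Cc u * ((Icc 1 N).filter (fun m => ArithmeticFunction.cardFactors m = j + s)).card := by
  classical
  set z := Nat.nthRoot u N with hzdef
  set q : ℕ → Prop := fun p => p ^ u ≤ N with hq
  have hu0 : u ≠ 0 := by omega
  have hqz : ∀ p : ℕ, q p ↔ p ≤ z := fun p => (Nat.le_nthRoot_iff hu0).symm
  have hzu : z ^ u ≤ N := (Nat.le_nthRoot_iff hu0).mp le_rfl
  have hNz : N < (z + 1) ^ u := Nat.lt_pow_nthRoot_add_one hu0 N
  have hN0 : 1 ≤ N := le_trans (Nat.one_le_pow _ _ (by omega)) hzu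
  set A := (Icc 1 N).filter (fun m => cnt q m = j ∧ (part q m) ^ 8 ≤ N) with hA
  set B := (Icc 1 N).filter (fun m => ArithmeticFunction.cardFactors m = j + s) with hB
  set T := (Icc 1 N).filter (fun a => a ^ 8 ≤ N ∧ (∀ p : ℕ, p.Prime → p ∣ a → q p) ∧
    ArithmeticFunction.cardFactors a = j) with hT
  have hTmem : ∀ a ∈ T, (1 ≤ a ∧ a ≤ N) ∧ a ^ 8 ≤ N ∧ (∀ p : ℕ, p.Prime → p ∣ a → q p) ∧
      ArithmeticFunction.cardFactors a = j := by
    intro a ha
    rw [hT, Finset.mem_filter, Finset.mem_Icc] at ha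
    exact ha
  -- size of N / a
  have hsize : ∀ a ∈ T, ∀ e : ℕ, 8 * e ≤ 7 * u → z ^ e ≤ N / a := by
    intro a ha e he
    obtain ⟨⟨h1, h2⟩, h3, h4, h5⟩ := hTmem a ha
    rw [Nat.le_div_iff_mul_le h1]
    have h6 : (z ^ e * a) ^ 8 ≤ N ^ 8 := by
      calc (z ^ e * a) ^ 8 = z ^ (8 * e) * a ^ 8 := by
            rw [mul_pow, ← pow_mul, mul_comm e 8]
        _ ≤ z ^ (7 * u) * N := by
            apply Nat.mul_le_mul _ h3
            exact Nat.pow_le_pow_right (by omega) he
        _ = (z ^ u) ^ 7 * N := by rw [← pow_mul, mul_comm 7 u]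
        _ ≤ N ^ 7 * N := Nat.mul_le_mul_right _ (Nat.pow_le_pow_left hzu 7)
        _ = N ^ 8 := by ring
    exact (Nat.pow_le_pow_iff_left (by norm_num)).mp h6
  -- upper bound
  have hup : A.card ≤ ∑ a ∈ T, ((Icc 1 (N / a)).filter
      (fun b => ∀ p : ℕ, p.Prime → p ≤ z → ¬ p ∣ b)).card := by
    have hmaps : ∀ m ∈ A, part q m ∈ T := by
      intro m hm
      rw [hA, Finset.mem_filter, Finset.mem_Icc] at hm
      obtain ⟨⟨h1, h2⟩, h3, h4⟩ := hm
      rw [hT, Finset.mem_filter, Finset.mem_Icc]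
      have h5 : part q m ∣ m := ⟨_, (part_mul q (by omega)).symm⟩
      refine ⟨⟨Nat.one_le_iff_ne_zero.mpr (part_ne_zero q m),
        (Nat.le_of_dvd (by omega) h5).trans h2⟩, h4, ?_, ?_⟩
      · intro p hp hd
        exact part_prime q hp hd
      · rw [cardFactors_part, h3]
    rw [Finset.card_eq_sum_card_fiberwise (f := part q) (t := T)
      (fun m hm => hmaps m hm)]
    apply Finset.sum_le_sum
    intro a ha
    obtain ⟨⟨ha1, ha2⟩, ha3, ha4, ha5⟩ := hTmem a ha
    apply Finset.card_le_card_of_injOn (fun m => part (fun p => ¬ q p) m)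
    · intro m hm
      rw [Finset.mem_coe, Finset.mem_filter, hA, Finset.mem_filter, Finset.mem_Icc] at hm
      obtain ⟨⟨⟨h1, h2⟩, h3, h4⟩, h5⟩ := hm
      rw [Finset.mem_coe, Finset.mem_filter, Finset.mem_Icc]
      refine ⟨⟨Nat.one_le_iff_ne_zero.mpr (part_ne_zero _ m), ?_⟩, ?_⟩
      · rw [Nat.le_div_iff_mul_le (by omega)]
        have := part_mul q (n := m) (by omega)
        rw [h5] at this
        rw [mul_comm, this]
        exact h2
      · intro p hp hpz hd
        exact part_prime (fun p => ¬ q p) hp hd ((hqz p).mpr hpz)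
    · intro m hm m' hm' h
      rw [Finset.mem_coe, Finset.mem_filter, hA, Finset.mem_filter, Finset.mem_Icc] at hm hm'
      have e1 := part_mul q (n := m) (by omega)
      have e2 := part_mul q (n := m') (by omega)
      have h' : part (fun p => ¬ q p) m = part (fun p => ¬ q p) m' := h
      rw [hm.2, h'] at e1
      rw [hm'.2] at e2
      exact e1.symm.trans e2
  -- lower bound
  have hlo : ∑ a ∈ T, (Rset z s (N / a)).card ≤ B.card := by
    refine le_trans ?_ (sum_fiber_le B T (part q))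
    apply Finset.sum_le_sum
    intro a ha
    obtain ⟨⟨ha1, ha2⟩, ha3, ha4, ha5⟩ := hTmem a ha
    apply Finset.card_le_card_of_injOn (fun b => a * b)
    · intro b hb
      rw [Finset.mem_coe, mem_Rset] at hb
      obtain ⟨⟨b1, b2⟩, b3, b4⟩ := hb
      rw [Finset.mem_coe, Finset.mem_filter, hB, Finset.mem_filter, Finset.mem_Icc]
      have hab0 : a * b ≠ 0 := Nat.mul_ne_zero (by omega) (by omega)
      refine ⟨⟨⟨Nat.one_le_iff_ne_zero.mpr hab0, ?_⟩, ?_⟩, ?_⟩
      · calc a * b ≤ a * (N / a) := Nat.mul_le_mul_left _ b2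
          _ ≤ N := Nat.mul_div_le N a
      · rw [ArithmeticFunction.cardFactors_mul (by omega) (by omega), ha5, b4]
      · exact (part_eq_of_mul q ha4 (fun p hp hd hqp => by
          have h1 := b3 p hp hd
          have h2 := (hqz p).mp hqp
          omega) hab0 rfl).1
    · intro b _ b' _ hbb
      exact Nat.eq_of_mul_eq_mul_left (by omega) hbb
  -- combine
  have hlogz : 0 < Real.log ((z : ℝ) + 1) := Real.log_pos (by
    have : (2 ^ 14 : ℝ) ≤ z := by exact_mod_cast hz
    linarith)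
  have hL : (Nat.log 2 N : ℝ) ≤ 2 * u * Real.log (z + 1) := by
    have h1 : (2 : ℝ) ^ Nat.log 2 N ≤ ((z : ℝ) + 1) ^ u := by
      have : 2 ^ Nat.log 2 N ≤ (z + 1) ^ u := (Nat.pow_log_le_self 2 (by omega)).trans hNz.le
      exact_mod_cast this
    have h2 := Real.log_le_log (by positivity) h1
    rw [Real.log_pow, Real.log_pow] at h2
    have h3 : (1 : ℝ) / 2 ≤ Real.log 2 := by
      have := Real.log_two_gt_d9
      linarith
    have h4 : (0 : ℝ) ≤ Nat.log 2 N := Nat.cast_nonneg _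
    nlinarith
  have hLpos : (0 : ℝ) < Nat.log 2 N := by
    have : 1 ≤ Nat.log 2 N := Nat.log_pos one_lt_two (by
      have : 2 ^ 14 ≤ N := by
        calc 2 ^ 14 ≤ z := hz
          _ = z ^ 1 := (pow_one z).symm
          _ ≤ z ^ u := Nat.pow_le_pow_right (by omega) (by omega)
          _ ≤ N := hzu
      omega)
    exact_mod_cast this
  have hterm : ∀ a ∈ T, ((((Icc 1 (N / a)).filter
      (fun b => ∀ p : ℕ, p.Prime → p ≤ z → ¬ p ∣ b)).card : ℕ) : ℝ) ≤
      Cc u * (Rset z s (N / a)).card := by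
    intro a ha
    have h1 := rough_upper (z := z) (X := N / a) (by omega) (hsize a ha 41 (by omega))
    obtain ⟨s', rfl⟩ : ∃ s', s = s' + 1 := ⟨s - 1, by omega⟩
    have h2 := R_lower hz (Nat.log 2 N) s' (N / a) (hsize a ha _ (by omega))
      (Nat.log_mono_right (Nat.div_le_self N a))
    have h3 : cR u ≤ cR (s' + 1) := cR_anti' (by omega)
    have hc := cR_pos u
    set X : ℝ := ((N / a : ℕ) : ℝ) with hX
    have hX0 : 0 ≤ X := Nat.cast_nonneg _
    have h4 : cR u * X / Nat.log 2 N ≤ (Rset z (s' + 1) (N / a)).card := by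
      refine le_trans ?_ h2
      gcongr
    have h5 : X ≤ (Rset z (s' + 1) (N / a)).card * (2 * u * Real.log (z + 1)) / cR u := by
      rw [le_div_iff₀ hc]
      rw [div_le_iff₀ hLpos] at h4
      calc X * cR u = cR u * X := mul_comm _ _
        _ ≤ (Rset z (s' + 1) (N / a)).card * (Nat.log 2 N : ℝ) := h4
        _ ≤ _ := by gcongr
    refine h1.trans ?_
    have h6 : X / Real.log (z + 1) ≤ (Rset z (s' + 1) (N / a)).card * (2 * u) / cR u := by
      rw [div_le_iff₀ hlogz]
      refine h5.trans (le_of_eq ?_)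
      ring
    have h7 : (0 : ℝ) ≤ Real.exp (Kt 1) + 1 := by positivity
    calc (Real.exp (Kt 1) + 1) * (X / Real.log (z + 1)) ≤
        (Real.exp (Kt 1) + 1) * ((Rset z (s' + 1) (N / a)).card * (2 * u) / cR u) :=
          mul_le_mul_of_nonneg_left h6 h7
      _ = Cc u * (Rset z (s' + 1) (N / a)).card := by unfold Cc; ring
  have hup' : (A.card : ℝ) ≤ ∑ a ∈ T, ((((Icc 1 (N / a)).filter
      (fun b => ∀ p : ℕ, p.Prime → p ≤ z → ¬ p ∣ b)).card : ℕ) : ℝ) := by
    exact_mod_cast hup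
  have hlo' : ∑ a ∈ T, ((Rset z s (N / a)).card : ℝ) ≤ B.card := by exact_mod_cast hlo
  calc (A.card : ℝ) ≤ _ := hup'
    _ ≤ ∑ a ∈ T, Cc u * (Rset z s (N / a)).card := Finset.sum_le_sum hterm
    _ = Cc u * ∑ a ∈ T, ((Rset z s (N / a)).card : ℝ) := by rw [Finset.mul_sum]
    _ ≤ Cc u * B.card := mul_le_mul_of_nonneg_left hlo' (Cc_nonneg u)

end Pool.Agent.Helper33.Cont
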