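import Mathlib
import Pool.Agent.Helper33.Cont.Compare

/-! Rare events: large smooth part, no large prime factor, many large prime factors. -/

namespace Pool.Agent.Helper33.Cont

open Finset Helper13.Om

lemma log_part (q : ℕ → Prop) [DecidablePred q] (n : ℕ) :
    Real.log (part q n) = ((n.primeFactorsList.filter (fun p => q p)).map
      (fun p : ℕ => Real.log (p : ℝ))).sum := by
  unfold part
  rw [Nat.cast_list_prod, Real.log_list_prod]
  · rw [List.map_map]
    rfl
  · intro x hx
    rw [List.mem_map] at hx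
    obtain ⟨p, hp, rfl⟩ := hx
    have := (Nat.prime_of_mem_primeFactorsList (List.mem_filter.mp hp).1).ne_zero
    exact_mod_cast this

/-- the smooth part is rarely large -/
theorem bad_a {u N M : ℕ} (hu : 1 ≤ u) (hN : 2 ≤ N) :
    (((Icc 1 M).filter (fun n => N < (part (fun p => p ^ u ≤ N) n) ^ 8)).card : ℝ) ≤
      128 * M / u := by
  classical
  set q : ℕ → Prop := fun p => p ^ u ≤ N with hq
  have hu0 : u ≠ 0 := by omega
  set z := Nat.nthRoot u N with hzdef
  have hqz : ∀ p : ℕ, q p ↔ p ≤ z := fun p => (Nat.le_nthRoot_iff hu0).symm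
  have hzu : z ^ u ≤ N := (Nat.le_nthRoot_iff hu0).mp le_rfl
  have hz1 : 1 ≤ z := by
    rw [hzdef, Nat.le_nthRoot_iff hu0]
    simp
    omega
  have huR : (0 : ℝ) < u := by exact_mod_cast hu
  have hlogN : 0 < Real.log N := Real.log_pos (by exact_mod_cast hN)
  set T := (Icc 1 M).filter (fun p => p.Prime ∧ q p) with hT
  have h1 : ∑ p ∈ T, Real.log p / p ≤ 8 * (Real.log N / u) := by
    have h2 := log_sum T (fun p hp => (Finset.mem_filter.mp hp).2.1) (Nat.log 2 z)
      (fun p hp => Nat.log_mono_right ((hqz p).mp (Finset.mem_filter.mp hp).2.2))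
    have h3 : ∑ p ∈ T, Real.log p / p ≤
        Real.log 2 * ∑ p ∈ T, ((Nat.log 2 p : ℝ) + 1) / p := by
      rw [Finset.mul_sum]
      apply Finset.sum_le_sum
      intro p hp
      have hp' := (Finset.mem_filter.mp hp).2.1
      have hp0 : (0 : ℝ) < p := by exact_mod_cast hp'.pos
      rw [← mul_div_assoc]
      apply div_le_div_of_nonneg_right _ hp0.le
      have h4 : (p : ℝ) ≤ 2 ^ (Nat.log 2 p + 1) := by
        exact_mod_cast (Nat.lt_pow_succ_log_self one_lt_two p).le
      have h5 := Real.log_le_log hp0 h4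
      rw [Real.log_pow] at h5
      push_cast at h5
      linarith
    have hlog2 : 0 < Real.log 2 := Real.log_pos one_lt_two
    have h6 : Real.log 2 * Nat.log 2 z ≤ Real.log N / u := by
      rw [le_div_iff₀ huR]
      have h7 : ((2 : ℝ) ^ Nat.log 2 z) ^ u ≤ N := by
        have : (2 ^ Nat.log 2 z) ^ u ≤ N :=
          (Nat.pow_le_pow_left (Nat.pow_log_le_self 2 (by omega)) u).trans hzu
        exact_mod_cast this
      have h8 := Real.log_le_log (by positivity) h7
      rw [Real.log_pow, Real.log_pow] at h8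
      linarith
    calc ∑ p ∈ T, Real.log p / p ≤ Real.log 2 * ∑ p ∈ T, ((Nat.log 2 p : ℝ) + 1) / p := h3
      _ ≤ Real.log 2 * (8 * Nat.log 2 z) := by gcongr
      _ = 8 * (Real.log 2 * Nat.log 2 z) := by ring
      _ ≤ 8 * (Real.log N / u) := by gcongr
  have h2 := sum_weight q M (fun p : ℕ => Real.log (p : ℝ)) (fun p => Real.log_natCast_nonneg p)
  set A := (Icc 1 M).filter (fun n => N < (part q n) ^ 8) with hA
  have h3 : (A.card : ℝ) * (Real.log N / 8) ≤ ∑ n ∈ Icc 1 M,
      ((n.primeFactorsList.filter (fun p => q p)).map (fun p : ℕ => Real.log (p : ℝ))).sum := by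
    have h4 : ∀ n ∈ A, Real.log N / 8 ≤
        ((n.primeFactorsList.filter (fun p => q p)).map (fun p : ℕ => Real.log (p : ℝ))).sum := by
      intro n hn
      rw [← log_part]
      have h5 : (N : ℝ) ≤ (part q n : ℝ) ^ 8 := by
        exact_mod_cast (Finset.mem_filter.mp hn).2.le
      have h6 := Real.log_le_log (by positivity) h5
      rw [Real.log_pow] at h6
      push_cast at h6
      linarith
    calc (A.card : ℝ) * (Real.log N / 8) = ∑ n ∈ A, Real.log N / 8 := by
          rw [Finset.sum_const, nsmul_eq_mul]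
      _ ≤ ∑ n ∈ A, ((n.primeFactorsList.filter (fun p => q p)).map
            (fun p : ℕ => Real.log (p : ℝ))).sum := Finset.sum_le_sum h4
      _ ≤ _ := by
          apply Finset.sum_le_sum_of_subset_of_nonneg (Finset.filter_subset _ _)
          intro n _ _
          rw [← log_part]
          exact Real.log_natCast_nonneg _
  have hM0 : (0 : ℝ) ≤ M := Nat.cast_nonneg M
  have h5 : (A.card : ℝ) * (Real.log N / 8) ≤ 2 * M * (8 * (Real.log N / u)) := by
    refine h3.trans (h2.trans ?_)
    gcongr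
  have h6 : (A.card : ℝ) * (Real.log N / 8) ≤ (128 * M / u) * (Real.log N / 8) := by
    refine h5.trans (le_of_eq ?_)
    field_simp
    ring
  exact le_of_mul_le_mul_right h6 (by positivity)

/-- few integers have no large prime factor and a small smooth part -/
theorem bad_b {u N M : ℕ} :
    ((Icc 1 M).filter (fun n => (part (fun p => p ^ u ≤ N) n) ^ 8 ≤ N ∧
      cnt (fun p => ¬ p ^ u ≤ N) n = 0)).card ≤ Nat.sqrt N := by
  classical
  have hsub : (Icc 1 M).filter (fun n => (part (fun p => p ^ u ≤ N) n) ^ 8 ≤ N ∧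
      cnt (fun p => ¬ p ^ u ≤ N) n = 0) ⊆ Icc 1 (Nat.sqrt N) := by
    intro n hn
    rw [Finset.mem_filter, Finset.mem_Icc] at hn
    obtain ⟨⟨h1, h2⟩, h3, h4⟩ := hn
    rw [Finset.mem_Icc]
    refine ⟨h1, ?_⟩
    have h5 := part_mul (fun p => p ^ u ≤ N) (n := n) (by omega)
    have h6 : part (fun p => ¬ p ^ u ≤ N) n = 1 := by
      unfold cnt at h4
      unfold part
      rw [List.length_eq_zero_iff.mp h4]
      rfl
    rw [h6, mul_one] at h5
    rw [h5] at h3
    rw [Nat.le_sqrt]
    calc n * n = n ^ 2 := by ring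
      _ ≤ n ^ 8 := Nat.pow_le_pow_right h1 (by norm_num)
      _ ≤ N := h3
  have := Finset.card_le_card hsub
  rwa [Nat.card_Icc, Nat.add_sub_cancel] at this

/-- the number of large prime factors is rarely large -/
theorem bad_c {h N M : ℕ} (hN : 2 ^ (2 ^ h) ≤ N) (hM : M ≤ 2 * N) (S : ℕ) (hS : 1 ≤ S) :
    (((Icc 1 M).filter (fun n => S < cnt (fun p => ¬ p ^ (2 ^ h) ≤ N) n)).card : ℝ) ≤
      8 * (h + 2) * M / S := by
  classical
  set u := 2 ^ h with hu
  have hu1 : 1 ≤ u := Nat.one_le_two_pow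
  set a := Nat.log 2 N / u with ha
  have hlogN : u ≤ Nat.log 2 N := by
    have := Nat.log_mono_right (b := 2) hN
    rwa [Nat.log_pow one_lt_two] at this
  have ha1 : 1 ≤ a := by
    rw [ha, Nat.le_div_iff_mul_le (by omega)]
    omega
  have hN0 : N ≠ 0 := by
    have : 0 < 2 ^ u := by positivity
    omega
  set T := (Icc 1 M).filter (fun p => p.Prime ∧ ¬ p ^ u ≤ N) with hT
  have hmem : ∀ p ∈ T, Nat.log 2 p ∈ Ico a (a * 2 ^ (h + 2)) := by
    intro p hp
    rw [hT, Finset.mem_filter, Finset.mem_Icc] at hp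
    obtain ⟨⟨h1, h2⟩, h3, h4⟩ := hp
    push Not at h4
    rw [Finset.mem_Ico]
    constructor
    · have h5 : N < 2 ^ ((Nat.log 2 p + 1) * u) := by
        calc N < p ^ u := h4
          _ ≤ (2 ^ (Nat.log 2 p + 1)) ^ u :=
            Nat.pow_le_pow_left (Nat.lt_pow_succ_log_self one_lt_two p).le u
          _ = 2 ^ ((Nat.log 2 p + 1) * u) := by rw [← pow_mul]
      have h6 : Nat.log 2 N < (Nat.log 2 p + 1) * u := Nat.log_lt_of_lt_pow hN0 h5
      have h7 : a < Nat.log 2 p + 1 := by
        rw [ha]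
        exact Nat.div_lt_of_lt_mul (by rw [mul_comm]; exact h6)
      omega
    · have h5 : Nat.log 2 p ≤ Nat.log 2 N + 1 := by
        calc Nat.log 2 p ≤ Nat.log 2 (N * 2) := Nat.log_mono_right (by omega)
          _ = Nat.log 2 N + 1 := Nat.log_mul_base one_lt_two hN0
      have h6 : Nat.log 2 N < u * (a + 1) := by
        rw [ha]
        exact Nat.lt_mul_div_succ _ (by omega)
      have h7 : u * (a + 1) ≤ u * (2 * a) := Nat.mul_le_mul_left _ (by omega)
      have h8 : a * 2 ^ (h + 2) = 2 * (u * (2 * a)) := by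
        rw [pow_add, ← hu]; ring
      rw [h8]
      have h9 : 1 ≤ u * (2 * a) := Nat.mul_pos (by omega) (by omega)
      omega
  have h1 : ∑ p ∈ T, (1 : ℝ) / p ≤ 4 * (h + 2) := by
    have h2 := shell_sum T (fun p hp => (Finset.mem_filter.mp hp).2.1) _ hmem (fun _ => (1 : ℝ))
      (fun _ => zero_le_one)
    have h3 := harm_upper a (h + 2) ha1
    calc ∑ p ∈ T, (1 : ℝ) / p ≤ ∑ e ∈ Ico a (a * 2 ^ (h + 2)), (1 : ℝ) * (4 / e) := h2
      _ = 4 * ∑ e ∈ Ico a (a * 2 ^ (h + 2)), (1 : ℝ) / e := by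
          rw [Finset.mul_sum]
          apply Finset.sum_congr rfl
          intro e _
          ring
      _ ≤ 4 * ((h + 2 : ℕ) : ℝ) := by gcongr
      _ = 4 * (h + 2) := by push_cast; ring
  have h2 := sum_weight (fun p => ¬ p ^ u ≤ N) M (fun _ => (1 : ℝ)) (fun _ => zero_le_one)
  set A := (Icc 1 M).filter (fun n => S < cnt (fun p => ¬ p ^ u ≤ N) n) with hA
  have hval : ∀ n, ((n.primeFactorsList.filter (fun p => ¬ p ^ u ≤ N)).map
      (fun _ => (1 : ℝ))).sum = cnt (fun p => ¬ p ^ u ≤ N) n := by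
    intro n
    unfold cnt
    simp
  have h3 : (A.card : ℝ) * S ≤ ∑ n ∈ Icc 1 M,
      ((n.primeFactorsList.filter (fun p => ¬ p ^ u ≤ N)).map (fun _ => (1 : ℝ))).sum := by
    calc (A.card : ℝ) * S = ∑ n ∈ A, (S : ℝ) := by rw [Finset.sum_const, nsmul_eq_mul]
      _ ≤ ∑ n ∈ A, ((n.primeFactorsList.filter (fun p => ¬ p ^ u ≤ N)).map
            (fun _ => (1 : ℝ))).sum := by
          apply Finset.sum_le_sum
          intro n hn
          rw [hval]
          exact_mod_cast (Finset.mem_filter.mp hn).2.le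
      _ ≤ _ := by
          apply Finset.sum_le_sum_of_subset_of_nonneg (Finset.filter_subset _ _)
          intro n _ _
          rw [hval]
          exact Nat.cast_nonneg _
  have hSR : (0 : ℝ) < S := by exact_mod_cast hS
  rw [le_div_iff₀ hSR]
  refine h3.trans (h2.trans ?_)
  have hM0 : (0 : ℝ) ≤ M := Nat.cast_nonneg M
  calc 2 * (M : ℝ) * ∑ p ∈ T, (1 : ℝ) / p ≤ 2 * M * (4 * (h + 2)) := by gcongr
    _ = 8 * (h + 2) * M := by ring

end Pool.Agent.Helper33.Cont
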