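import Mathlib
import Pool.Agent.Helper33.Cont.Bad
import Pool.Agent.Helper13.Om.Assemble

/-! Uniform absolute continuity of the joint law of `Ω` at consecutive integers with respect to
the product law. -/

namespace Pool.Agent.Helper33.Cont

open Finset Helper13.Om Filter

open scoped Classical in
/-- Comparison of product counts from comparison of the local laws. -/
theorem prod_compare {k : ℕ} (G : Fin k → Finset ℕ) (f : Fin k → ℕ → ℕ) (g : ℕ → ℕ)
    (V : Finset ℕ) (K : ℝ) (hK : 0 ≤ K)
    (h : ∀ i l, (((G i).filter (fun m => f i m = l)).card : ℝ) ≤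
      K * (V.filter (fun m => g m = l)).card) (E : Set (Fin k → ℕ)) :
    (((Fintype.piFinset G).filter (fun m => (fun i => f i (m i)) ∈ E)).card : ℝ) ≤
      K ^ k * ((Fintype.piFinset (fun _ : Fin k => V)).filter
        (fun m => (fun i => g (m i)) ∈ E)).card := by
  set W : Finset (Fin k → ℕ) :=
    (Fintype.piFinset (fun i => (G i).image (f i))).filter (fun l => l ∈ E) with hW
  have h1 : ((Fintype.piFinset G).filter (fun m => (fun i => f i (m i)) ∈ E)).card =
      ∑ l ∈ W, ((Fintype.piFinset (fun i => (G i).filter (fun m => f i m = l i)))).card := by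
    rw [Finset.card_eq_sum_card_fiberwise (f := fun (m : Fin k → ℕ) => fun i => f i (m i)) (t := W)]
    · apply Finset.sum_congr rfl
      intro l hl
      congr 1
      ext m
      rw [hW, Finset.mem_filter] at hl
      simp only [Finset.mem_filter, Fintype.mem_piFinset]
      constructor
      · rintro ⟨⟨a1, a2⟩, a3⟩ i
        exact ⟨a1 i, congrFun a3 i⟩
      · intro a
        have e : (fun i => f i (m i)) = l := funext fun i => (a i).2
        exact ⟨⟨fun i => (a i).1, by rw [e]; exact hl.2⟩, e⟩
    · intro m hm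
      rw [Finset.mem_coe, Finset.mem_filter, Fintype.mem_piFinset] at hm
      rw [Finset.mem_coe, hW, Finset.mem_filter, Fintype.mem_piFinset]
      exact ⟨fun i => Finset.mem_image_of_mem _ (hm.1 i), hm.2⟩
  rw [h1]
  push_cast
  have h2 : ∀ l ∈ W,
      (((Fintype.piFinset (fun i => (G i).filter (fun m => f i m = l i))).card : ℕ) : ℝ) ≤
      K ^ k * ((Fintype.piFinset (fun i => V.filter (fun m => g m = l i))).card : ℕ) := by
    intro l _
    rw [Fintype.card_piFinset, Fintype.card_piFinset]
    push_cast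
    calc ∏ i, (((G i).filter (fun m => f i m = l i)).card : ℝ) ≤
        ∏ i, (K * (V.filter (fun m => g m = l i)).card) :=
          Finset.prod_le_prod (fun i _ => Nat.cast_nonneg _) (fun i _ => h i (l i))
      _ = K ^ k * ∏ i, ((V.filter (fun m => g m = l i)).card : ℝ) := by
          rw [Finset.prod_mul_distrib]
          simp
  refine (Finset.sum_le_sum h2).trans ?_
  rw [← Finset.mul_sum]
  apply mul_le_mul_of_nonneg_left _ (pow_nonneg hK k)
  have h3 : ∑ l ∈ W, (Fintype.piFinset (fun i => V.filter (fun m => g m = l i))).card ≤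
      ((Fintype.piFinset (fun _ : Fin k => V)).filter
        (fun m => (fun i => g (m i)) ∈ E)).card := by
    refine le_trans (le_of_eq ?_) (sum_fiber_le ((Fintype.piFinset (fun _ : Fin k => V)).filter
        (fun m => (fun i => g (m i)) ∈ E)) W (fun m i => g (m i)))
    apply Finset.sum_congr rfl
    intro l hl
    congr 1
    ext m
    rw [hW, Finset.mem_filter] at hl
    simp only [Finset.mem_filter, Fintype.mem_piFinset]
    constructor
    · intro a
      have e : (fun i => g (m i)) = l := funext fun i => (a i).2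
      exact ⟨⟨fun i => (a i).1, by rw [e]; exact hl.2⟩, e⟩
    · rintro ⟨⟨a1, a2⟩, a3⟩ i
      exact ⟨a1 i, congrFun a3 i⟩
  exact_mod_cast h3

lemma exists_h (k : ℕ) (ε : ℝ) (hε : 0 < ε) (u₀ : ℕ) : ∃ h : ℕ, u₀ ≤ 2 ^ h ∧ 9 ≤ h ∧
    (k : ℝ) * ((512 + 128 * ((h : ℝ) + 2)) / 2 ^ h) ≤ ε := by
  have h1 : Tendsto (fun h : ℕ => (h : ℝ) ^ 1 * (1 / 2 : ℝ) ^ h) atTop (nhds 0) :=
    tendsto_pow_const_mul_const_pow_of_abs_lt_one 1 (by rw [abs_of_pos] <;> norm_num)
  have h2 : Tendsto (fun h : ℕ => (1 / 2 : ℝ) ^ h) atTop (nhds 0) :=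
    tendsto_pow_atTop_nhds_zero_of_lt_one (by norm_num) (by norm_num)
  have h3 : Tendsto (fun h : ℕ => (k : ℝ) * (768 * (1 / 2 : ℝ) ^ h +
      128 * ((h : ℝ) ^ 1 * (1 / 2 : ℝ) ^ h))) atTop (nhds ((k : ℝ) * (768 * 0 + 128 * 0))) :=
    ((h2.const_mul 768).add (h1.const_mul 128)).const_mul _
  have h4 : (k : ℝ) * (768 * 0 + 128 * 0) = 0 := by ring
  rw [h4] at h3
  have h5 := (h3.eventually (gt_mem_nhds hε)).and (eventually_ge_atTop (u₀ + 9))
  obtain ⟨h, h6, h7⟩ := h5.exists
  refine ⟨h, ?_, by omega, ?_⟩
  · have := (Nat.lt_two_pow_self (n := h)).le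
    omega
  · refine le_trans (le_of_eq ?_) h6.le
    rw [one_div, inv_pow]
    field_simp
    ring

open scoped Classical in
/-- **Uniform absolute continuity.** -/
theorem contiguity (k : ℕ) (ε : ℝ) (hε : 0 < ε) : ∃ C : ℝ, 0 ≤ C ∧ ∃ N₀ : ℕ, ∀ N ≥ N₀,
    ∀ E : Set (Fin k → ℕ),
    1 / (N : ℝ) * ((Icc 1 N).filter
      (fun n => (fun i : Fin k => ArithmeticFunction.cardFactors (n + i)) ∈ E)).card ≤
    C * (1 / (N : ℝ) ^ k * ((Fintype.piFinset (fun _ : Fin k => Icc 1 N)).filter
      (fun m => (fun i => ArithmeticFunction.cardFactors (m i)) ∈ E)).card) + ε := by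
  rcases Nat.eq_zero_or_pos k with rfl | hk
  · refine ⟨1, zero_le_one, 1, fun N hN E => ?_⟩
    have hNR : (0 : ℝ) < N := by exact_mod_cast hN
    by_cases hE : (fun i : Fin 0 => (0 : ℕ)) ∈ E
    · have e1 : ∀ x : Fin 0 → ℕ, x ∈ E := fun x => by
        rwa [Subsingleton.elim x (fun i => 0)]
      have e2 : ((Fintype.piFinset (fun _ : Fin 0 => Icc 1 N)).filter
          (fun m => (fun i => ArithmeticFunction.cardFactors (m i)) ∈ E)).card = 1 := by
        rw [Finset.filter_true_of_mem (fun m _ => e1 _)]
        simp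
      rw [e2, Finset.filter_true_of_mem (fun m _ => e1 _)]
      simp only [Nat.card_Icc, Nat.add_sub_cancel, pow_zero]
      rw [one_div, inv_mul_cancel₀ hNR.ne']
      norm_num
      exact hε.le
    · have e1 : ∀ x : Fin 0 → ℕ, x ∉ E := fun x => by
        rwa [Subsingleton.elim x (fun i => 0)]
      rw [Finset.filter_false_of_mem (fun m _ => e1 _)]
      have : (0 : ℝ) ≤ 1 * (1 / (N : ℝ) ^ 0 * ((Fintype.piFinset (fun _ : Fin 0 => Icc 1 N)).filter
          (fun m => (fun i => ArithmeticFunction.cardFactors (m i)) ∈ E)).card) := by positivity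
      simp only [Finset.card_empty, Nat.cast_zero, mul_zero]
      linarith
  set i₀ : Fin k := ⟨0, hk⟩ with hi₀
  obtain ⟨u₀, hu₀⟩ := main_trunc k i₀ (ε / 8) (by positivity)
  obtain ⟨h, hh1, hh2, hh3⟩ := exists_h k (ε / 8) (by positivity) u₀
  set u := 2 ^ h with hu
  obtain ⟨S, hS⟩ : ∃ S, u = 8 * S := ⟨2 ^ (h - 3), by
    rw [hu, show 8 = 2 ^ 3 by norm_num, ← pow_add]; congr 1; omega⟩
  have hu512 : 512 ≤ u := by
    calc 512 = 2 ^ 9 := by norm_num
      _ ≤ 2 ^ h := Nat.pow_le_pow_right (by norm_num) hh2
  have hS1 : 1 ≤ S := by omega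
  obtain ⟨N₁, hN₁⟩ := hu₀ u hh1
  obtain ⟨N₂, hN₂⟩ := exists_nat_gt (((k : ℝ) * (8 / ε)) ^ 2)
  set Q : Finset (Fin k → ℕ) :=
    Fintype.piFinset (fun i => if i = i₀ then {0} else Icc 1 S) with hQ
  set K : ℝ := max 1 (Cc u) with hK
  have hK1 : 1 ≤ K := le_max_left _ _
  have hK0 : 0 ≤ K := zero_le_one.trans hK1
  obtain ⟨Z, hZ⟩ : ∃ Z : ℕ, Z = (2 ^ 14) ^ u := ⟨_, rfl⟩
  refine ⟨Q.card * K ^ k, by positivity, N₁ + N₂ + Z + k + 2, fun N hN E => ?_⟩
  have hNbig : (2 ^ 14) ^ u ≤ N := by rw [← hZ]; omega
  have hNk : k ≤ N := by omega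
  have hN2 : 2 ≤ N := by omega
  have hNR : (0 : ℝ) < N := by
    have : 0 < N := by omega
    exact_mod_cast this
  have hkR : (0 : ℝ) ≤ k := Nat.cast_nonneg k
  have huR : (0 : ℝ) < u := by
    have : 0 < u := by omega
    exact_mod_cast this
  have hz : 2 ^ 14 ≤ Nat.nthRoot u N := (Nat.le_nthRoot_iff (by omega)).mpr hNbig
  have hN2u : 2 ^ u ≤ N := by
    calc 2 ^ u ≤ (2 ^ 14) ^ u := Nat.pow_le_pow_left (by norm_num) u
      _ ≤ N := hNbig
  set q : ℕ → Prop := fun p => p ^ u ≤ N with hq
  -- the truncated vectors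
  set Xn : ℕ → Fin k → ℕ := fun n i => if i = i₀ then
    ArithmeticFunction.cardFactors (n + i) else OmT u N (n + i) with hXn
  set Xm : (Fin k → ℕ) → Fin k → ℕ := fun m i => if i = i₀ then
    ArithmeticFunction.cardFactors (m i) else OmT u N (m i) with hXm
  set E' : Set (Fin k → ℕ) := {x | ∃ s ∈ Q, (fun i => x i + s i) ∈ E} with hE'
  set A := (Icc 1 N).filter
    (fun n => (fun i : Fin k => ArithmeticFunction.cardFactors (n + i)) ∈ E) with hA
  set A' := (Icc 1 N).filter (fun n => Xn n ∈ E') with hA'
  set Bd := (Icc 1 (N + k)).filter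
    (fun n => ¬ ((part q n) ^ 8 ≤ N ∧ 1 ≤ cnt (fun p => ¬ q p) n ∧ cnt (fun p => ¬ q p) n ≤ S))
    with hBd
  -- step 1 : A ⊆ A' ∪ bad
  have step1 : A.card ≤ A'.card + k * Bd.card := by
    have hsub : A ⊆ A' ∪ (Finset.univ : Finset (Fin k)).biUnion
        (fun i => (Icc 1 N).filter (fun n => n + i ∈ Bd)) := by
      intro n hn
      rw [hA, Finset.mem_filter] at hn
      rw [Finset.mem_union, Finset.mem_biUnion]
      by_cases hb : ∃ i : Fin k, n + i ∈ Bd
      · right
        obtain ⟨i, hi⟩ := hb
        exact ⟨i, Finset.mem_univ i, Finset.mem_filter.mpr ⟨hn.1, hi⟩⟩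
      · left
        push Not at hb
        have hgood : ∀ i : Fin k, (part q (n + i)) ^ 8 ≤ N ∧ 1 ≤ cnt (fun p => ¬ q p) (n + i) ∧
            cnt (fun p => ¬ q p) (n + i) ≤ S := by
          intro i
          have := hb i
          rw [hBd, Finset.mem_filter] at this
          have hmem : n + (i : ℕ) ∈ Icc 1 (N + k) := by
            have := Finset.mem_Icc.mp hn.1
            rw [Finset.mem_Icc]
            have := i.2
            omega
          by_contra hc
          exact this ⟨hmem, hc⟩
        rw [hA', Finset.mem_filter]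
        refine ⟨hn.1, fun i => if i = i₀ then 0 else cnt (fun p => ¬ q p) (n + i), ?_, ?_⟩
        · rw [hQ, Fintype.mem_piFinset]
          intro i
          by_cases hi : i = i₀
          · simp [hi]
          · simp only [hi, if_false, Finset.mem_Icc]
            exact (hgood i).2
        · have e : (fun i => Xn n i + (fun i : Fin k => if i = i₀ then 0 else
              cnt (fun p => ¬ q p) (n + i)) i) =
              (fun i : Fin k => ArithmeticFunction.cardFactors (n + i)) := by
            funext i
            rw [hXn]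
            by_cases hi : i = i₀
            · simp [hi]
            · simp only [hi, if_false]
              exact cnt_add q (n + i)
          show (fun i => Xn n i + (fun i : Fin k => if i = i₀ then 0 else
              cnt (fun p => ¬ q p) (n + i)) i) ∈ E
          rw [e]
          exact hn.2
    refine (Finset.card_le_card hsub).trans ((Finset.card_union_le _ _).trans ?_)
    apply Nat.add_le_add_left
    refine Finset.card_biUnion_le.trans ?_
    have : ∀ i ∈ (Finset.univ : Finset (Fin k)),
        ((Icc 1 N).filter (fun n => n + (i : ℕ) ∈ Bd)).card ≤ Bd.card := by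
      intro i _
      apply Finset.card_le_card_of_injOn (fun n => n + (i : ℕ))
      · intro n hn
        exact (Finset.mem_filter.mp hn).2
      · intro a _ b _ hab
        exact Nat.add_right_cancel hab
    refine (Finset.sum_le_card_nsmul _ _ _ this).trans ?_
    simp
  -- step 2 : the bad set is small
  have hM2 : N + k ≤ 2 * N := by omega
  have step2 : (Bd.card : ℝ) ≤ 256 * N / u + Nat.sqrt N + 128 * (h + 2) * N / u := by
    have hsub : Bd ⊆ ((Icc 1 (N + k)).filter (fun n => N < (part q n) ^ 8)) ∪
        ((Icc 1 (N + k)).filter (fun n => (part q n) ^ 8 ≤ N ∧ cnt (fun p => ¬ q p) n = 0)) ∪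
        ((Icc 1 (N + k)).filter (fun n => S < cnt (fun p => ¬ q p) n)) := by
      intro n hn
      rw [hBd, Finset.mem_filter] at hn
      rw [Finset.mem_union, Finset.mem_union, Finset.mem_filter, Finset.mem_filter,
        Finset.mem_filter]
      by_cases h1 : (part q n) ^ 8 ≤ N
      · by_cases h2 : cnt (fun p => ¬ q p) n = 0
        · left; right; exact ⟨hn.1, h1, h2⟩
        · right
          refine ⟨hn.1, ?_⟩
          by_contra h3
          exact hn.2 ⟨h1, by omega, by omega⟩
      · left; left; exact ⟨hn.1, by omega⟩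
    have h1 := Finset.card_le_card hsub
    have h2 := h1.trans ((Finset.card_union_le _ _).trans
      (Nat.add_le_add_right (Finset.card_union_le _ _) _))
    have ha := bad_a (u := u) (N := N) (M := N + k) (by omega) hN2
    have hb := bad_b (u := u) (N := N) (M := N + k)
    have hc := bad_c (h := h) (N := N) (M := N + k) hN2u hM2 S hS1
    have hb' : (((Icc 1 (N + k)).filter (fun n => (part q n) ^ 8 ≤ N ∧
      cnt (fun p => ¬ q p) n = 0)).card : ℝ) ≤ Nat.sqrt N := by exact_mod_cast hb
    have h2' : (Bd.card : ℝ) ≤ ((Icc 1 (N + k)).filter (fun n => N < (part q n) ^ 8)).card +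
        ((Icc 1 (N + k)).filter (fun n => (part q n) ^ 8 ≤ N ∧ cnt (fun p => ¬ q p) n = 0)).card +
        ((Icc 1 (N + k)).filter (fun n => S < cnt (fun p => ¬ q p) n)).card := by
      exact_mod_cast h2
    have hMR : ((N + k : ℕ) : ℝ) ≤ 2 * N := by exact_mod_cast hM2
    have ha' : 128 * ((N + k : ℕ) : ℝ) / u ≤ 256 * N / u := by
      apply div_le_div_of_nonneg_right _ huR.le
      linarith
    have hSR : (0 : ℝ) < S := by exact_mod_cast hS1
    have huS : (u : ℝ) = 8 * S := by exact_mod_cast hS
    have hc' : 8 * ((h : ℝ) + 2) * ((N + k : ℕ) : ℝ) / S ≤ 128 * (h + 2) * N / u := by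
      rw [huS, div_le_div_iff₀ hSR (by positivity)]
      have h0 : (0 : ℝ) ≤ h := Nat.cast_nonneg h
      have : 8 * ((h : ℝ) + 2) * ((N + k : ℕ) : ℝ) ≤ 8 * (h + 2) * (2 * N) := by gcongr
      nlinarith
    linarith
  -- step 3 : truncated comparison
  have step3 : 1 / (N : ℝ) * A'.card ≤ 1 / (N : ℝ) ^ k *
      ((Fintype.piFinset (fun _ : Fin k => Icc 1 N)).filter (fun m => Xm m ∈ E')).card + ε / 8 := by
    have h1 := hN₁ N (by omega) (fun x => if x ∈ E' then 1 else 0) (by
      intro s
      split_ifs <;> simp)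
    have e1 : ∑ n ∈ Finset.Icc 1 N, (fun x => if x ∈ E' then (1 : ℝ) else 0) (fun i : Fin k =>
        if i = i₀ then ArithmeticFunction.cardFactors (n + i) else OmT u N (n + i)) = A'.card := by
      rw [hA', Finset.card_filter]
      push_cast
      rfl
    have e2 : ∑ m ∈ Fintype.piFinset (fun _ : Fin k => Finset.Icc 1 N),
        (fun x => if x ∈ E' then (1 : ℝ) else 0) (fun i : Fin k =>
        if i = i₀ then ArithmeticFunction.cardFactors (m i) else OmT u N (m i)) =
        ((Fintype.piFinset (fun _ : Fin k => Icc 1 N)).filter (fun m => Xm m ∈ E')).card := by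
      rw [Finset.card_filter]
      push_cast
      rfl
    rw [e1, e2] at h1
    have := (abs_le.mp h1).2
    linarith
  -- step 4 : product side
  set V := Icc 1 N with hV
  set Dt := (Fintype.piFinset (fun _ : Fin k => V)).filter
      (fun m => (fun i => ArithmeticFunction.cardFactors (m i)) ∈ E) with hDt
  set Gd : Finset ℕ := V.filter (fun n => (part q n) ^ 8 ≤ N) with hGd
  have step4 : (((Fintype.piFinset (fun _ : Fin k => V)).filter (fun m => Xm m ∈ E')).card : ℝ) ≤
      (N : ℝ) ^ k * (k * (128 / u)) + Q.card * K ^ k * Dt.card := by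
    have hsub : (Fintype.piFinset (fun _ : Fin k => V)).filter (fun m => Xm m ∈ E') ⊆
        (Finset.univ : Finset (Fin k)).biUnion (fun i =>
          Fintype.piFinset (fun j => if j = i then V.filter (fun n => N < (part q n) ^ 8) else V)) ∪
        Q.biUnion (fun s => (Fintype.piFinset (fun i => if i = i₀ then V else Gd)).filter
          (fun m => (fun i => (if i = i₀ then ArithmeticFunction.cardFactors (m i)
            else OmT u N (m i)) + s i) ∈ E)) := by
      intro m hm
      rw [Finset.mem_filter, Fintype.mem_piFinset] at hm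
      obtain ⟨hm1, s, hs1, hs2⟩ := hm
      rw [Finset.mem_union, Finset.mem_biUnion, Finset.mem_biUnion]
      by_cases hb : ∃ i, N < (part q (m i)) ^ 8
      · left
        obtain ⟨i, hi⟩ := hb
        refine ⟨i, Finset.mem_univ i, ?_⟩
        rw [Fintype.mem_piFinset]
        intro j
        by_cases hj : j = i
        · subst hj
          simp only [if_true]
          exact Finset.mem_filter.mpr ⟨hm1 j, hi⟩
        · simp only [hj, if_false]
          exact hm1 j
      · right
        push Not at hb
        refine ⟨s, hs1, ?_⟩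
        rw [Finset.mem_filter, Fintype.mem_piFinset]
        refine ⟨fun i => ?_, hs2⟩
        by_cases hi : i = i₀
        · simp only [hi, if_true]
          exact hm1 _
        · simp only [hi, if_false]
          exact Finset.mem_filter.mpr ⟨hm1 i, hb i⟩
    have h1 := Finset.card_le_card hsub
    have h2 := h1.trans ((Finset.card_union_le _ _).trans
      (Nat.add_le_add Finset.card_biUnion_le Finset.card_biUnion_le))
    have h2' : (((Fintype.piFinset (fun _ : Fin k => V)).filter (fun m => Xm m ∈ E')).card : ℝ) ≤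
        ∑ i : Fin k, ((Fintype.piFinset (fun j => if j = i then
          V.filter (fun n => N < (part q n) ^ 8) else V)).card : ℝ) +
        ∑ s ∈ Q, (((Fintype.piFinset (fun i => if i = i₀ then V else Gd)).filter
          (fun m => (fun i => (if i = i₀ then ArithmeticFunction.cardFactors (m i)
            else OmT u N (m i)) + s i) ∈ E)).card : ℝ) := by
      exact_mod_cast h2
    refine h2'.trans (add_le_add ?_ ?_)
    · have h3 : ∀ i ∈ (Finset.univ : Finset (Fin k)),
          ((Fintype.piFinset (fun j => if j = i then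
          V.filter (fun n => N < (part q n) ^ 8) else V)).card : ℝ) ≤ N ^ k * (128 / u) := by
        intro i _
        rw [Fintype.card_piFinset]
        push_cast
        rw [← Finset.mul_prod_erase Finset.univ _ (Finset.mem_univ i)]
        have h4 : ∏ x ∈ Finset.univ.erase i, (((if x = i then
            V.filter (fun n => N < (part q n) ^ 8) else V).card : ℕ) : ℝ) = (N : ℝ) ^ (k - 1) := by
          rw [Finset.prod_congr rfl (g := fun _ => (N : ℝ))]
          · simp
          · intro x hx
            have hxi : x ≠ i := Finset.ne_of_mem_erase hx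
            simp [hxi, hV]
        rw [h4]
        have ha := bad_a (u := u) (N := N) (M := N) (by omega) hN2
        have hk' : (N : ℝ) ^ k = N * (N : ℝ) ^ (k - 1) := by
          rw [← pow_succ']; congr 1; omega
        rw [hk']
        simp only [if_true]
        calc ((V.filter (fun n => N < (part q n) ^ 8)).card : ℝ) * (N : ℝ) ^ (k - 1) ≤
            (128 * N / u) * (N : ℝ) ^ (k - 1) := by gcongr
          _ = N * (N : ℝ) ^ (k - 1) * (128 / u) := by ring
      refine (Finset.sum_le_card_nsmul _ _ _ h3).trans (le_of_eq ?_)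
      rw [Finset.card_univ, Fintype.card_fin, nsmul_eq_mul]
      ring
    · have h3 : ∀ s ∈ Q, (((Fintype.piFinset (fun i => if i = i₀ then V else Gd)).filter
          (fun m => (fun i => (if i = i₀ then ArithmeticFunction.cardFactors (m i)
            else OmT u N (m i)) + s i) ∈ E)).card : ℝ) ≤ K ^ k * Dt.card := by
        intro s hs
        rw [hQ, Fintype.mem_piFinset] at hs
        apply prod_compare (fun i => if i = i₀ then V else Gd)
          (fun i m => (if i = i₀ then ArithmeticFunction.cardFactors m else OmT u N m) + s i)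
          (fun m => ArithmeticFunction.cardFactors m) V K hK0
        intro i l
        have hsi := hs i
        by_cases hi : i = i₀
        · simp only [hi, if_true, Finset.mem_singleton] at hsi
          rw [hi]
          simp only [if_true, hsi, add_zero]
          have h0 : (0 : ℝ) ≤ ((V.filter (fun m => ArithmeticFunction.cardFactors m = l)).card : ℝ) :=
            Nat.cast_nonneg _
          nlinarith
        · simp only [hi, if_false, Finset.mem_Icc] at hsi
          simp only [hi, if_false]
          by_cases hl : l < s i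
          · have : Gd.filter (fun m => OmT u N m + s i = l) = ∅ := by
              rw [Finset.filter_eq_empty_iff]
              intro m _
              omega
            rw [this]
            simp only [Finset.card_empty, Nat.cast_zero]
            positivity
          · obtain ⟨j, rfl⟩ : ∃ j, l = j + s i := ⟨l - s i, by omega⟩
            have hc := compare (u := u) (N := N) (by omega) hz j (s i) hsi.1 (by omega)
            have e : Gd.filter (fun m => OmT u N m + s i = j + s i) =
                V.filter (fun m => cnt (fun p => p ^ u ≤ N) m = j ∧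
                  (part (fun p => p ^ u ≤ N) m) ^ 8 ≤ N) := by
              ext m
              rw [Finset.mem_filter, hGd, Finset.mem_filter, Finset.mem_filter]
              constructor
              · rintro ⟨⟨a1, a2⟩, a3⟩
                exact ⟨a1, Nat.add_right_cancel a3, a2⟩
              · rintro ⟨a1, a2, a3⟩
                refine ⟨⟨a1, a3⟩, ?_⟩
                have : OmT u N m = j := a2
                rw [this]
            rw [e]
            refine hc.trans ?_
            have : Cc u ≤ K := le_max_right _ _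
            gcongr
      refine (Finset.sum_le_card_nsmul _ _ _ h3).trans (le_of_eq ?_)
      rw [nsmul_eq_mul]
      ring
  -- combine
  have hsq : (Nat.sqrt N : ℝ) * k ≤ N * (ε / 8) := by
    have h1 : (Nat.sqrt N : ℝ) ^ 2 ≤ N := by
      have := Nat.sqrt_le' N
      exact_mod_cast this
    have h2 : ((k : ℝ) * (8 / ε)) ^ 2 ≤ N := by
      have : (N₂ : ℝ) ≤ N := by
        have : N₂ ≤ N := by omega
        exact_mod_cast this
      linarith
    have h3 : (k : ℝ) * (8 / ε) * Nat.sqrt N ≤ N := by
      have h4 : 0 ≤ (k : ℝ) * (8 / ε) := by positivity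
      have h5 : (0 : ℝ) ≤ Nat.sqrt N := Nat.cast_nonneg _
      have h6 : ((k : ℝ) * (8 / ε) * Nat.sqrt N) ^ 2 ≤ (N : ℝ) ^ 2 := by
        rw [mul_pow]
        calc ((k : ℝ) * (8 / ε)) ^ 2 * (Nat.sqrt N : ℝ) ^ 2 ≤ N * N := by gcongr
          _ = (N : ℝ) ^ 2 := by ring
      exact (pow_le_pow_iff_left₀ (by positivity) hNR.le two_ne_zero).mp h6
    calc (Nat.sqrt N : ℝ) * k = ((k : ℝ) * (8 / ε) * Nat.sqrt N) * (ε / 8) := by
          field_simp
      _ ≤ N * (ε / 8) := by gcongr
  have hu' : ((2 : ℝ) ^ h) = u := by rw [hu]; push_cast; rfl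
  rw [hu'] at hh3
  have s1 : (A.card : ℝ) ≤ A'.card + k * Bd.card := by exact_mod_cast step1
  have s2 : (k : ℝ) * Bd.card ≤ N * (ε / 8) + N * (ε / 8) := by
    have h1 : (k : ℝ) * Bd.card ≤
        k * (256 * N / u + Nat.sqrt N + 128 * (h + 2) * N / u) := by gcongr
    have h2 : (k : ℝ) * (256 * N / u + Nat.sqrt N + 128 * (h + 2) * N / u) ≤
        N * (k * ((512 + 128 * ((h : ℝ) + 2)) / u)) + Nat.sqrt N * k := by
      have h3 : (k : ℝ) * (256 * N / u + Nat.sqrt N + 128 * (h + 2) * N / u) =
        N * (k * ((256 + 128 * ((h : ℝ) + 2)) / u)) + Nat.sqrt N * k := by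
        field_simp
        ring
      rw [h3]
      gcongr
      norm_num
    have h4 : N * (k * ((512 + 128 * ((h : ℝ) + 2)) / u)) ≤ N * (ε / 8) := by gcongr
    linarith
  have s5 : (k : ℝ) * (128 / u) ≤ ε / 8 := by
    refine le_trans ?_ hh3
    gcongr
    have h0 : (0 : ℝ) ≤ h := Nat.cast_nonneg h
    linarith
  have hA1 : 1 / (N : ℝ) * A.card ≤ 1 / (N : ℝ) * A'.card + (ε / 8 + ε / 8) := by
    have h1 : 1 / (N : ℝ) * A.card ≤ 1 / (N : ℝ) * (A'.card + (N * (ε / 8) + N * (ε / 8))) := by
      gcongr
      linarith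
    refine h1.trans (le_of_eq ?_)
    field_simp
  have hA2 : 1 / (N : ℝ) ^ k *
      ((Fintype.piFinset (fun _ : Fin k => Icc 1 N)).filter (fun m => Xm m ∈ E')).card ≤
      ε / 8 + Q.card * K ^ k * (1 / (N : ℝ) ^ k * Dt.card) := by
    calc 1 / (N : ℝ) ^ k *
      ((Fintype.piFinset (fun _ : Fin k => Icc 1 N)).filter (fun m => Xm m ∈ E')).card ≤
      1 / (N : ℝ) ^ k * ((N : ℝ) ^ k * (k * (128 / u)) + Q.card * K ^ k * Dt.card) := by gcongr
      _ = k * (128 / u) + Q.card * K ^ k * (1 / (N : ℝ) ^ k * Dt.card) := by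
        field_simp
      _ ≤ _ := by gcongr
  linarith

end Pool.Agent.Helper33.Cont
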