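import Mathlib
import Pool.Agent.Helper33.Cont.Main
import Pool.Agent.Helper13.Om.Reduction

/-! The contiguity statement in terms of sums over tuples. -/

namespace Pool.Agent.Helper33.Cont

open Finset Helper13.Om Filter

lemma sum_mu (k N : ℕ) (s : Finset (Fin k → ℕ)) :
    ∑ ℓ ∈ s, muN k N ℓ = 1 / (N : ℝ) * ∑ n ∈ Finset.Icc 1 N,
      (fun ℓ : Fin k → ℕ => if ℓ ∈ s then (1 : ℝ) else 0)
        (fun i => ArithmeticFunction.cardFactors (n + i)) := by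
  classical
  refine Eq.trans ?_ (mu_apply k N (fun ℓ : Fin k → ℕ => if ℓ ∈ s then (1 : ℝ) else 0)).symm
  have h : ∀ ℓ ∈ Bx k N, muN k N ℓ * (fun ℓ : Fin k → ℕ => if ℓ ∈ s then (1 : ℝ) else 0) ℓ =
      if ℓ ∈ s then muN k N ℓ else 0 := by
    intro ℓ _
    by_cases hs : ℓ ∈ s <;> simp [hs]
  rw [Finset.sum_congr rfl h, ← Finset.sum_filter]
  have h2 : (Bx k N).filter (fun ℓ => ℓ ∈ s) = s.filter (fun ℓ => ℓ ∈ Bx k N) := by
    ext ℓ; simp only [Finset.mem_filter]; tauto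
  rw [h2, Finset.sum_filter]
  apply Finset.sum_congr rfl
  intro ℓ _
  split_ifs with hB
  · rfl
  · exact muN_zero k N ℓ hB

lemma sum_pi (k N : ℕ) (s : Finset (Fin k → ℕ)) :
    ∑ ℓ ∈ s, piN k N ℓ = 1 / (N : ℝ) ^ k * ∑ m ∈ Fintype.piFinset (fun _ : Fin k => Finset.Icc 1 N),
      (fun ℓ : Fin k → ℕ => if ℓ ∈ s then (1 : ℝ) else 0)
        (fun i => ArithmeticFunction.cardFactors (m i)) := by
  classical
  refine Eq.trans ?_ (pi_apply k N (fun ℓ : Fin k → ℕ => if ℓ ∈ s then (1 : ℝ) else 0)).symm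
  have h : ∀ ℓ ∈ Bx k N, piN k N ℓ * (fun ℓ : Fin k → ℕ => if ℓ ∈ s then (1 : ℝ) else 0) ℓ =
      if ℓ ∈ s then piN k N ℓ else 0 := by
    intro ℓ _
    by_cases hs : ℓ ∈ s <;> simp [hs]
  rw [Finset.sum_congr rfl h, ← Finset.sum_filter]
  have h2 : (Bx k N).filter (fun ℓ => ℓ ∈ s) = s.filter (fun ℓ => ℓ ∈ Bx k N) := by
    ext ℓ; simp only [Finset.mem_filter]; tauto
  rw [h2, Finset.sum_filter]
  apply Finset.sum_congr rfl
  intro ℓ _
  split_ifs with hB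
  · rfl
  · exact piN_zero k N ℓ hB

theorem contiguity_sum (k : ℕ) (ε : ℝ) (hε : 0 < ε) : ∃ C : ℝ, 0 ≤ C ∧ ∃ N₀ : ℕ, ∀ N ≥ N₀,
    ∀ s : Finset (Fin k → ℕ), ∑ ℓ ∈ s, muN k N ℓ ≤ C * ∑ ℓ ∈ s, piN k N ℓ + ε := by
  classical
  obtain ⟨C, hC, N₀, h⟩ := contiguity k ε hε
  refine ⟨C, hC, N₀, fun N hN s => ?_⟩
  have h1 := h N hN (s : Set (Fin k → ℕ))
  rw [sum_mu, sum_pi]
  have e1 : ∑ n ∈ Finset.Icc 1 N, (fun ℓ : Fin k → ℕ => if ℓ ∈ s then (1 : ℝ) else 0)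
      (fun i => ArithmeticFunction.cardFactors (n + i)) = (((Icc 1 N).filter
      (fun n => (fun i : Fin k => ArithmeticFunction.cardFactors (n + i)) ∈
        (s : Set (Fin k → ℕ)))).card : ℝ) := by
    rw [Finset.card_filter]
    push_cast
    rfl
  have e2 : ∑ m ∈ Fintype.piFinset (fun _ : Fin k => Finset.Icc 1 N),
      (fun ℓ : Fin k → ℕ => if ℓ ∈ s then (1 : ℝ) else 0)
        (fun i => ArithmeticFunction.cardFactors (m i)) =
      (((Fintype.piFinset (fun _ : Fin k => Icc 1 N)).filter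
      (fun m => (fun i => ArithmeticFunction.cardFactors (m i)) ∈ (s : Set (Fin k → ℕ)))).card
        : ℝ) := by
    rw [Finset.card_filter]
    push_cast
    rfl
  rw [e1, e2]
  convert h1

end Pool.Agent.Helper33.Cont
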